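import Mathlib
import Pool.Agent.H15.XI3

set_option autoImplicit false

namespace Pool.Agent.Results.MP_65850b_an.Nonempty

open Pool.Agent.H15.XI

theorem result : ∃ R : ℝ, 0.11 < R ∧ ∃ z : ℂ, F R z = 0 ∧ 2 ≤ z.im :=
  Pool.Agent.H15.XI.main

end Pool.Agent.Results.MP_65850b_an.Nonempty
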